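import Pool.Agent.N557.BP.Stm
import Pool.Agent.W333.BB.Mp

/-!
# BP/GOOD: almost every direction is good

Statement: helper557, Lean proof: helper681.
-/

set_option autoImplicit false

namespace Pool.Agent.N681.BP

open Complex Set MeasureTheory Filter Topology Pool.Agent.W780.PG Pool.Agent.W780.BB
  Pool.Agent.TH103.BL Pool.Agent.N557.BP

open scoped Real ComplexConjugate

variable {n : ℕ}

/-- the direction of a folded state -/
noncomputable def fda (p : Fin (n + 3) → ℂ) : List (Fin (n + 3)) → ℝ → ℝ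
  | [], θ => θ
  | i :: w, θ => fda p w (2 * tau p i - θ)

theorem fd_eq (p : Fin (n + 3) → ℂ) (w : List (Fin (n + 3))) (z : ℂ) (θ : ℝ) :
    fd p w (z, θ) = (fp p w z, fda p w θ) := by
  induction w generalizing z θ with
  | nil => rfl
  | cons i w ih => exact ih (rf p i z) (2 * tau p i - θ)

theorem mp_fp (p : Fin (n + 3) → ℂ) (w : List (Fin (n + 3))) : MeasurePreserving (fp p w) := by
  induction w with
  | nil => exact MeasurePreserving.id _
  | cons i w ih => exact ih.comp (Pool.Agent.W333.BB.mp_rf p i)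

theorem mp_fda (p : Fin (n + 3) → ℂ) (w : List (Fin (n + 3))) : MeasurePreserving (fda p w) := by
  induction w with
  | nil => exact MeasurePreserving.id _
  | cons i w ih =>
    exact ih.comp (Measure.measurePreserving_sub_left (volume : Measure ℝ) (2 * tau p i))

theorem t_good : S_Good := by
  intro n p _ f _ _ hcs c hc
  have hP : ∀ᵐ θ : ℝ, ∃ G : ℂ → ℝ, Continuous G ∧ (∀ i, G (p i) = c i) ∧
      ∀ᵐ z : ℂ, z ∈ region p → f (z, θ) = G z := by
    filter_upwards [hcs, hc] with θ h1 h2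
    obtain ⟨G, hG⟩ := h1
    exact ⟨G, hG.1, h2 G hG, hG.2⟩
  have hw : ∀ᵐ θ : ℝ, ∀ w : List (Fin (n + 3)), ∃ G : ℂ → ℝ, Continuous G ∧
      (∀ i, G (p i) = c i) ∧ ∀ᵐ z : ℂ, z ∈ region p → f (z, fda p w θ) = G z := by
    rw [ae_all_iff]
    intro w
    exact (mp_fda p w).quasiMeasurePreserving.ae hP
  filter_upwards [hw] with θ hθ w
  obtain ⟨G, hG, hGc, hGz⟩ := hθ w
  refine ⟨G, hG, hGc, ?_⟩
  rw [ae_all_iff]
  intro q
  have hmp : MeasurePreserving (fun z : ℂ => fp p w (z + (q : ℝ) • dir θ)) :=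
    (mp_fp p w).comp (measurePreserving_add_right (volume : Measure ℂ) ((q : ℝ) • dir θ))
  filter_upwards [hmp.quasiMeasurePreserving.ae hGz] with z hz
  rw [fd_eq]
  exact hz

end Pool.Agent.N681.BP
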